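import Pool.Agent.U201.PC.Nef
import Pool.Agent.X324.CF.Plus2
import Pool.Agent.U201.RL.Bridge

set_option autoImplicit false

/-!
# The relative nef cone conjecture for pairs: `(A × F) / G` over quotients of abelian varieties

Let `A = V / Λ` be an abelian variety, `F` a normal projective variety, `ℚ`-factorial with free class
group, and `X = (A × F) / G`, where a finite group `G` acts diagonally (freely or not). Let `X → Z` be
a fibration onto a quotient `Z = W / Γ'` of an abelian variety, given by a linear map `π : V → W` (`Z`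
may be a point), and `Δ` an effective divisor with real coefficients on `X` such that `Δ · C = 0` for
the images `C` of the curves `C' × {point}` of `A × F`. Then the pullback of `Δ` is `A × Δ_F` for a
divisor `Δ_F` on `F`. (By Ambro (2005) every klt Calabi–Yau pair is of the form `(A × (F, Δ_F)) / G`,
with `F` of irregularity zero.) Suppose that

* there is a rational polyhedral cone `Π_F ⊆ Nef(F) ∩ Eff(F)` whose translates under `Aut(F, Δ_F)`
  cover `Nef(F) ∩ Eff(F)`, and
* only finitely many elements of `Aut(F, Δ_F)` act trivially on `Cl(F)`.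

Then the cone `A^e(X/Z)` of nef and effective classes has a rational polyhedral fundamental domain for
the action of `Aut(X/Z, Δ)`, and it is the convex hull of the rational classes in the nef cone of
`X/Z`. The automorphisms of `X` over `Z` which are induced by pairs (affine transformation of `V`,
automorphism of `(F, Δ_F)`) are sufficient.

`Aut(F, Δ_F)` can be infinite, and the nef cone of `F` need not be polyhedral. The hand-in
`Pool.Agent.Results.MP_20d318_ag.NefProductQuotients` is about varieties `F` whose nef cone is spanned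
by finitely many semiample classes; there only automorphisms of the form `(f, id)` are needed. The case
where `Z` is a point is `Pool.Agent.Results.MP_9f99c5_ag.EquivariantPairs`. By Totaro (2010) the
hypotheses on `(F, Δ_F)` hold for klt Calabi–Yau pairs of dimension two and irregularity zero, for
example for the blowup `F` of the plane in the nine base points of a general pencil of cubics.

The proof. (1) The Siegel property of the action of `Aut(F, Δ_F)` on the ample cone (`EC.siegel`), and
the finite kernel, show that the elements of `Aut(F, Δ_F)` which commute with `G` (up to scalars of the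
Cox ring) move the `G`-invariant ample classes into finitely many rational polyhedral cones
(`PC.covering`). (2) For the hermitian forms on the kernel `E` of `π` this is relative reduction
theory: the automorphisms of `A` over `Z` act on the forms on `E`; the automorphisms of both factors
are combined (`PC.coreP`). (3) The components of `Δ` have Chern form zero, and so their sections are
constant in the direction of `V` up to exponential factors (`PC.const_sect`); hence these
automorphisms preserve `Δ`.

`IsAutS`, `IsConePair`, `InSupp`, `Keeps` and `TrivialOnA` are defined in `Pool.Agent.U201.PC.Defs`;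
`NefF`, `EffF`, `IsAut`, `ext`, `IsPull` and `nefEff` in `Pool.Agent.U201.EC.Defs`; `cj` and
`DescendsTo` in `Pool.Agent.U201.RL.Defs`; `rv` in
`Pool.Agent.X324.CF.Poly`; `Cl`, `Semistable`, `SemiampleF`, `Induces`, `Scal`, `Grp`, `base`, `Inv`,
`IsQuotient`, `Sheaf`, `EffDiv`, `N1`, `val`, `integral`, `effective`, `semiample`, `coneHull`,
`nefCone` and `effCone` in `Pool.Agent.X324.CF.Defs`; `IsTorusQuotient` in
`Pool.Agent.W594.SYZ.Defs2`; `IsPositiveForm` in `Pool.Agent.W594.SYZ.TQDefs`; `IsFibration` in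
`Pool.Agent.TH735.AQ.Defs`; `AffGrp`, `LinGrp`, `Preserves` and `IsFundDomain` in
`Pool.Agent.Y167.Stm`; `cone` in `Pool.Agent.Y167.ConeDef`.
-/

namespace Pool.Agent.Results.MP_20d318_ag.FibredConePairs

open Pool.Agent.W594.SYZ2 Pool.Agent.TH735.AQ Pool.Agent.X324.CF Pool.Agent.U201.EC
  Pool.Agent.U201.PC Pool.Agent.U201.RL
open Pool.Agent.Y167 (AffGrp cone)
open Pool.Agent.Y167.CC (LinGrp Preserves IsFundDomain)

/-- The support of the divisor `Δ_F` on `F`, the restriction of `Δ` to the image of `{0} × F`. -/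
def suppF {V R : Type*} [NormedAddCommGroup V] [NormedSpace ℂ V] [CommRing R] [Algebra ℂ R] {ρ : ℕ}
    {𝒜 : Cl ρ → Submodule ℂ R} {Γ : Grp V R} {ι : Type*} (Δ : EffDiv 𝒜 Γ ι) :
    Set (R →ₐ[ℂ] ℂ) := {p | InSupp Δ 0 p}

/-- The affine transformation `f` of `V` induces an automorphism of `A` over `Z = W / Γ'`. -/
def Over {V W : Type*} [NormedAddCommGroup V] [NormedSpace ℂ V] [NormedAddCommGroup W]
    [NormedSpace ℂ W] (Γ' : AffGrp W) (π : V →ₗ[ℂ] W) (f : V ≃ᵃ[ℂ] V) : Prop :=
  ∃ δ ∈ Γ', ∀ v, π (f v) = δ (π v)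

/-- `𝒢` is a group of linear automorphisms of `N^1(X/Z)` which preserves the integral classes and the
cone `A^e(X/Z)` of nef and effective classes, and which contains the pullbacks by all automorphisms of
`X = (V × F) / Γ` over `Z` which map the support of `Δ` onto itself and are given by pairs `(f, φ)`,
where `f` is an affine transformation of `V` and `φ` an automorphism of `F`. The image of
`Aut(X/Z, Δ)` has these properties. -/
structure IsAutXZ {V W E R : Type*} [NormedAddCommGroup V] [NormedSpace ℂ V]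
    [NormedAddCommGroup W] [NormedSpace ℂ W] [NormedAddCommGroup E] [NormedSpace ℂ E]
    [CommRing R] [Algebra ℂ R] {ρ : ℕ} {𝒜 : Cl ρ → Submodule ℂ R} (u : Cl ρ)
    {Γ : Grp V R} (Γ' : AffGrp W) (π : V →ₗ[ℂ] W) {j : E →ₗ[ℂ] V} {ι : Type*}
    (Δ : EffDiv 𝒜 Γ ι) (𝒢 : LinGrp (N1 𝒜 Γ j)) : Prop where
  int : Preserves 𝒢 (integral 𝒜 Γ j)
  nef_eff : Preserves 𝒢 (nefEff 𝒜 Γ j u)
  pull : ∀ (f : V ≃ᵃ[ℂ] V) (φ : R ≃ₐ[ℂ] R) (σ : Cl ρ ≃+ Cl ρ), IsAut 𝒜 u φ σ →
    Keeps u Δ f φ → DescendsTo 𝒜 Γ (f, φ) → Over Γ' π f → ∀ g, IsPull f σ g → g ∈ 𝒢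

/-- Let `X = (V × F) / Γ` be a projective quotient of `A × F` by a finite group acting diagonally,
`X → Z = W / Γ'` a fibration and `Δ` an effective divisor with real coefficients on `X` which is
numerically trivial on the images of the curves `C' × {point}`, such that `F` and `Δ_F` satisfy the
existence part of the cone conjecture. Here `E` is the kernel of `π`, embedded by `j`. There is a
finite set `S` of integral classes such that the cone spanned by `S` is contained in `A^e(X/Z)` and is
a fundamental domain for the action of `𝒢` on `A^e(X/Z)`. Moreover, `A^e(X/Z)` is the convex hull of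
the rational classes in the nef cone of `X/Z`. -/
theorem result {V W E R : Type*} [NormedAddCommGroup V] [NormedSpace ℂ V] [FiniteDimensional ℂ V]
    [NormedAddCommGroup W] [NormedSpace ℂ W] [FiniteDimensional ℂ W]
    [NormedAddCommGroup E] [NormedSpace ℂ E] [FiniteDimensional ℂ E]
    [CommRing R] [IsDomain R] [Algebra ℂ R] {ρ : ℕ}
    (𝒜 : Cl ρ → Submodule ℂ R) [GradedAlgebra 𝒜] (u : Cl ρ)
    (Γ : Grp V R) (hX : IsQuotient 𝒜 u Γ)
    (hproj : ∃ (L : Sheaf 𝒜 Γ) (H : V → V → ℂ), L.IsChern H ∧ IsPositiveForm H)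
    (Γ' : AffGrp W) (π : V →ₗ[ℂ] W) (hπ : IsFibration (base Γ) Γ' π)
    (j : E →ₗ[ℂ] V) (hj : Function.Injective j) (hjr : LinearMap.range j = LinearMap.ker π)
    {ι : Type*} (Δ : EffDiv 𝒜 Γ ι) (hΔ : TrivialOnA Δ) (hF : IsConePair 𝒜 u (suppF Δ))
    (𝒢 : LinGrp (N1 𝒜 Γ j)) (h𝒢 : IsAutXZ u Γ' π Δ 𝒢) :
    (∃ S : Finset (N1 𝒜 Γ j), ↑S ⊆ integral 𝒜 Γ j ∧ cone S ⊆ nefEff 𝒜 Γ j u ∧
      IsFundDomain 𝒢 (nefEff 𝒜 Γ j u) (cone S)) ∧
    nefEff 𝒜 Γ j u = convexHull ℝ (nefCone 𝒜 Γ j u ∩
      {a | ∃ m : ℕ, 0 < m ∧ (m : ℝ) • a ∈ integral 𝒜 Γ j}) := by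
  obtain ⟨H₀, Rl⟩ := rel_emb hX hproj hπ hj hjr
  refine ⟨core_nef hX Δ hΔ hF Rl 𝒢 h𝒢.int h𝒢.nef_eff
    fun f φ σ h1 h2 h3 hf g hg => h𝒢.pull f φ σ h1 h2 (descendsTo_of h3) ⟨1, Γ'.one_mem, fun v => by
      obtain ⟨e, he⟩ := hf v
      have h5 : π (j e) = 0 := by
        have h6 : j e ∈ LinearMap.ker π := hjr ▸ LinearMap.mem_range_self j e
        exact h6
      rw [he, map_add, h5, add_zero]
      rfl⟩ g hg, ?_⟩
  have h1 := cp_eqP hF.sys hX (goodQ_nef hF hX) Rl
  have h2 := closure_eqP hF.sys hX (goodQ_nef hF hX) Rl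
  have h3 : nefEff 𝒜 Γ j u
      = closure (coneHull (semiample 𝒜 Γ j u)) ∩ effCone 𝒜 Γ j := rfl
  have h4 : nefCone 𝒜 Γ j u = closure (coneHull (semiample 𝒜 Γ j u)) := rfl
  rw [h3, h1, h4, h2, cp_eq_convexHull KP_zero fun t ht a ha => KP_smul ht ha]
  rfl

end Pool.Agent.Results.MP_20d318_ag.FibredConePairs
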