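import Pool.Agent.U189.ND.Defs
import Pool.Agent.U189.MG.RelNef

/-!
# The relative nef cone conjecture for the models of covers branched along normal crossing hypersurfaces

**The varieties.** Let `F k`, `k = 0, ..., n`, be forms of degrees `d k` in `n + 1` variables whose
zero sets in the projective `n`-space are smooth hypersurfaces with normal crossings, `Y` a normal
abelian cover of the projective space which is branched only along these hypersurfaces, and `X` the
toroidal modification of `Y` which is given by `fan` (see `Pool/Agent/U189/ND/Defs.lean`, where the
definitions `NormalCrossings`, `Admissible`, `InCone`, `IsFan`, `affine`, `minimalOrder`,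
`multiplicities` and `coefficient` are explained). `D 1, ..., D p` are toroidal `ℚ`-Cartier divisors on
`X`; the coefficients of their pullbacks at the prime divisors `P` over `X` are the `δ i P`. If `n ≥ 3`, if
every generator of a ray has at most `n - 1` positive coordinates and if the `D i` generate the toroidal
divisors of a `ℚ`-factorial projective `X`, then the classes of the `D i` generate `N¹(X)` (Lefschetz; this
remark is not used and not proved here).

**The small modifications.** `X'` is any projective variety which is isomorphic to `X` in codimension
one, such that the strict transforms of the `D i` are `ℚ`-Cartier and some combination of them is ample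
(`IsSmallModification`, with the coefficients `δ'`; `X' = X` is allowed if some combination of the `D i`
is ample on `X`). These `X'` are in general not toroidal modifications of `Y`.

**The contractions.** Let `ν0` be an integral combination which is nef on `X'`. It is semiample
(`MP_cda8c3_ag.NormalCrossingModels`) and defines a morphism `X' → Z` with connected fibres onto a
projective variety `Z`; every such morphism is obtained in this way (if the classes of the `D i` generate
`N¹(X')`). A real combination of the `D i` is nef over `Z` if and only if it becomes nef on `X'` if a
multiple of `ν0` is added (`IsNefOver`); indeed the cone of the nef combinations on `X'` is given by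
finitely many inequalities of the form `lam · C ≥ 0` with curves `C`, by the theorem for `ν0 = 0`.

**The theorem.** Let `e j`, `j < q`, be integral vectors, `E j = ∑ i, e j i * D i`, for instance `E = D`, or
`E` such that the classes of the `E j` over `Z` are a basis of the image of the group which is
generated by the `D i` in `N¹(X'/Z)`.
(1) The cone of the real combinations of the `E j` which are nef over `Z` is spanned by finitely many
integral combinations, which are base point free over `Z` (`BasePointFreeOver`). In particular all
combinations which are nef over `Z` are effective over `Z`.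
(2) If the classes of the `E j` over `Z` are a basis (`IsBasisOver`) then EVERY group `Γ` of invertible
integral matrices which preserves this cone (for instance the group of the matrices of
`Aut(X'/Z, Δ)`) is finite, and there is a rational polyhedral cone, spanned by combinations which are base
point free over `Z`, which is a fundamental domain for the action of `Γ` on the relative nef cone.

This gives the relative cone conjecture for all klt log Calabi-Yau pairs `(X'/Z, Δ)` on all these `X'` and
over all `Z`. There is no condition on the degrees, so `Y` can be of general type. Examples of such pairs: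
`Z` a point, `K_Y` torsion and `X` a crepant toroidal resolution of `Y`, `Δ = 0`; `Z` a point, `R = 0` and
`K_X + Δ` the pullback of `K + ∑ k, b k * H k`, where `0 ≤ b k < 1` and `∑ k, b k * d k = n + 1`; and every
klt pair `(X', Δ)` such that `K_X' + Δ` is semiample, with its Iitaka fibration `X' → Z`.

**Proof.** New are the finite generation of the Cox ring of `X` (`Pool/Agent/U189/NF`) and the deduction
of the relative statements (`Pool/Agent/U189/MG`); the absolute statements and the polyhedral geometry
are in the library of `helper660` (`Pool/Agent/U660/MD`). The case that `Z` is a point is contained in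
`MP_ad47bb_ag.NormalCrossingModels`.
-/

set_option autoImplicit false

open FF MvPolynomial Pool.Agent.W602.GT

namespace Pool.Agent.Results.MP_20d318_ag.NormalCrossingModels

open Pool.Agent.Results.MP_89a3f8_ag.TerminationOfFlips
  (IsSection BasePointFree Semiample IsSmallModification)
open Pool.Agent.U660.MD Pool.Agent.U189.ND Pool.Agent.U189.MG

/-- **The relative nef cone conjecture.** Let `K` be the function field of an abelian cover `Y` of the
projective `n`-space which is branched along `n + 1` hypersurfaces `F k = 0` with normal crossings, `X` the
toroidal modification of `Y` which is given by `fan`, and `D i`, `i < p`, toroidal `ℚ`-Cartier divisors on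
`X` with the degrees `β i` and the coefficients `c i`. For each small modification `X'` of `X` (with the
coefficients `δ'`) and every integral combination `ν0` which is nef on `X'`, with the contraction
`X' → Z`, and all integral vectors `e j`, `j < q`: the cone of the real combinations of the `e j` which are
nef over `Z` is spanned by finitely many integral ones which are base point free over `Z`; and if the
classes of the `e j` over `Z` are a basis then every group `Γ` of invertible integral matrices which
preserves this cone is finite and has a rational polyhedral fundamental domain on it, spanned by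
combinations which are base point free over `Z`. -/
theorem result (n R p : ℕ) (hn : 1 ≤ n) (d : Fin (n + 1) → ℕ) (hd : ∀ k, 1 ≤ d k)
    (F : Fin (n + 1) → MvPolynomial (Fin (n + 1)) ℂ) (hF : ∀ k, (F k).IsHomogeneous (d k))
    (hs : NormalCrossings F) (m : Fin R → ℕ) (hm : ∀ j, 1 ≤ m j) (a : Fin R → Fin (n + 1) → ℕ)
    (hdiv : ∀ j, m j ∣ ∑ k, a j k * d k)
    (K : Type) [Field K] [Algebra ℂ K] (x : Fin (n + 1) → K) (hx0 : x 0 ≠ 0)
    (hbas : IsTranscendenceBasis ℂ (affine x)) (z : Fin R → K)
    (hz : ∀ j, z j ^ m j = ∏ k, (aeval x (F k) / x 0 ^ d k) ^ a j k)
    (hgen : IntermediateField.adjoin ℂ (Set.range (affine x) ∪ Set.range z) = ⊤)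
    (fan : Finset (Finset (Fin (n + 1) → ℕ))) (hfan : IsFan m a fan)
    (c : Fin p → (Fin (n + 1) → ℕ) → ℚ) (hc0 : ∀ i, c i 0 = 0) (β : Fin p → ℤ)
    (u : Finset (Fin (n + 1) → ℕ) → Fin p → Fin (n + 1) → ℚ)
    (hlin : ∀ σ ∈ fan, ∀ i v, Admissible m a v → InCone σ v → - c i v = ∑ k, u σ i k * v k)
    (δ : Fin p → Place ℂ K → ℚ) (hδ : ∀ i P, δ i P = coefficient F d x (c i) (β i) P)
    (δ' : Fin p → Place ℂ K → ℚ) (hδ' : IsSmallModification n δ δ')
    (ν0 : Fin p → ℤ) (hν0 : IsNef n δ' fun i => (ν0 i : ℝ)) (q : ℕ) (e : Fin q → Fin p → ℤ) :
    (∃ (B : ℕ) (h : Fin B → Fin q → ℤ),
      (∀ b, BasePointFreeOver n δ' ν0 (combinationZ e (h b))) ∧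
      {x | IsNefOver n δ' ν0 (combination e x)} = coneOf h) ∧
    (IsBasisOver n δ' ν0 e → ∀ Γ : Subgroup (Matrix (Fin q) (Fin q) ℤ)ˣ,
      (∀ γ ∈ Γ, ∀ x, IsNefOver n δ' ν0 (combination e x) →
        IsNefOver n δ' ν0 (combination e (apply γ x))) →
      Finite Γ ∧ ∃ (M : ℕ) (π : Fin M → Fin q → ℤ),
        (∀ b, BasePointFreeOver n δ' ν0 (combinationZ e (π b))) ∧
          IsFundamentalDomain Γ {x | IsNefOver n δ' ν0 (combination e x)} (coneOf π)) :=
  rel_nef (cox_nc n R p hn d hd F hF hs m hm a hdiv K x hx0 hbas z hz hgen fan hfan c hc0 β u
    hlin δ hδ) hδ' hν0 e

end Pool.Agent.Results.MP_20d318_ag.NormalCrossingModels
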