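import Pool.Agent.Q57.CX.Top
import Pool.Agent.U189.MG.RelNef

/-!
# The relative nef cone conjecture for the models of covers of products of projective spaces

**The varieties.** Let `F i` be a form of degree `d i` in `n i + 1` variables whose zero set in the
projective `n i`-space is a smooth hypersurface, and let `H i` be the cyclic hypersurface
`w ^ (d i) = F i` in the projective `(n i + 1)`-space. Let `Y` be a quotient `(H 1 × ... × H r) / G`, where
`G` is any group of diagonal automorphisms `w i ↦ ζ i * w i`, `ζ i ^ (d i) = 1`: an abelian cover of the
product of the projective `n i`-spaces which is branched along the hypersurfaces `F i = 0` of the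
factors. Its function field `K` is generated by the affine coordinates `x i j / x i 0` and by roots `z j`,
`z j ^ (m j) = ∏ i, (F i (x i) / x i 0 ^ (d i)) ^ (a j i)`, where `m j` divides `a j i * d i`. `X` is the
toroidal modification of `Y` which is given by `fan`, and `D 1, ..., D p` are toroidal `ℚ`-Cartier divisors
on `X`; the coefficients of their pullbacks at the prime divisors `P` over `X` are the `δ i P`. See
`Pool.Agent.Results.MP_89a3f8_ag.TerminationOfFlips`, whose definitions (`Smooth`, `Admissible`,
`InCone`, `IsFan`, `affine`, `minimalOrder`, `multiplicities`, `coefficient`, `IsSection`,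
`BasePointFree`, `Semiample`, `IsSmallModification`) are used here. If all `n i ≥ 3` and if the `D i`
generate the toroidal divisors of a `ℚ`-factorial `X` then all divisors on `X` are rational combinations of
the `D i` up to `ℚ`-linear equivalence (Lefschetz; this remark is not used and not proved here). There is
no condition on the dimensions and the degrees.

**The small modifications.** `X'` is any projective variety which is isomorphic to `X` in codimension
one, such that the strict transforms of the `D i` are `ℚ`-Cartier and some combination of them is ample
(`IsSmallModification`, with the coefficients `δ'`; `X' = X` is allowed if some combination of the `D i`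
is ample on `X`). These `X'` are in general not toroidal modifications of `Y`.

**The contractions.** Let `ν0` be an integral combination which is nef on `X'`. It is semiample
(`MP_5ee2d0_ag.UniformFreeness`) and defines a morphism `X' → Z` with connected fibres onto a
projective variety `Z`; every such morphism is obtained in this way (if the classes of the `D i` generate
`N¹(X')`). A real combination of the `D i` is nef over `Z` if and only if it becomes nef on `X'` if a
multiple of `ν0` is added (`IsNefOver`); indeed the cone of the nef combinations on `X'` is given by
finitely many inequalities of the form `lam · C ≥ 0` with curves `C`, by the theorem for `ν0 = 0`.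

**The theorem.** Let `e j`, `j < q`, be integral vectors, `E j = ∑ i, e j i * D i`, for instance `E = D`, or
`E` such that the classes of the `E j` over `Z` are a basis of the image of the group which is
generated by the `D i` in `N¹(X'/Z)`.
(1) The cone of the real combinations of the `E j` which are nef over `Z` is spanned by finitely many
integral combinations, which are base point free over `Z` (`BasePointFreeOver`).
(2) If the classes of the `E j` over `Z` are a basis (`IsBasisOver`) then EVERY group `Γ` of invertible
integral matrices which preserves this cone (for instance the group of the matrices of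
`Aut(X'/Z, Δ)`) is finite, and there is a rational polyhedral cone, spanned by combinations which are base
point free over `Z`, which is a fundamental domain for the action of `Γ` on the relative nef cone.

This gives the relative cone conjecture for all klt log Calabi-Yau pairs `(X'/Z, Δ)` on all these `X'` and
over all `Z`. Examples: `K_Y` is trivial over the product of some of the factors, `X` a crepant toroidal
resolution of `Y` and `X → Z` the fibration over this product (`Δ = 0`); `X → Y` itself (`Z = Y`, `X` a crepant
resolution of the quotient singularities of `Y`); and every klt pair `(X', Δ)` such that `K_X' + Δ` is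
semiample, with its Iitaka fibration.

**Relation to the other results.** The case that `Z` is a point is `MP_9f99c5_ag.ToroidalModels`
(`helper660`). `MP_20d318_ag.NormalCrossingModels` is the same statement for another class of
varieties `Y`: covers of one projective space which are branched along several hypersurfaces with
normal crossings. The proof uses the finite generation of the Cox ring (`Q57.CX.main_cox`), the library
`Pool/Agent/U660/MD` and, for the relative statements, `Pool/Agent/U189/MG`.
-/

set_option autoImplicit false

open FF MvPolynomial Pool.Agent.W602.GT

namespace Pool.Agent.Results.MP_20d318_ag.ProductCoverModels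

open Pool.Agent.Results.MP_89a3f8_ag.TerminationOfFlips
open Pool.Agent.U660.MD Pool.Agent.U189.MG

/-- **The relative nef cone conjecture.** Let `K` be the function
field of an abelian cover `Y` of the product of the projective `n i`-spaces which is branched along smooth
hypersurfaces `F i = 0` of the factors, `X` the toroidal modification of `Y` which is given by `fan`, and
`D i`, `i < p`, toroidal `ℚ`-Cartier divisors on `X` with the degrees `β i t` and the coefficients `c i`.
For each small modification `X'` of `X` (with the coefficients `δ'`) and every integral combination `ν0`
which is nef on `X'`, with the contraction `X' → Z`, and all integral vectors `e j`, `j < q`: the cone of the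
real combinations of the `e j` which are nef over `Z` is spanned by finitely many integral ones which are
base point free over `Z`; and if the classes of the `e j` over `Z` are a basis then every group `Γ` of
invertible integral matrices which preserves this cone is finite and has a rational polyhedral
fundamental domain on it, spanned by combinations which are base point free over `Z`. -/
theorem result (r N R p : ℕ) (n d : Fin r → ℕ) (hr : 1 ≤ r) (hn : ∀ i, 1 ≤ n i)
    (hd : ∀ i, 1 ≤ d i) (hN : N = ∑ i, n i)
    (F : ∀ i, MvPolynomial (Fin (n i + 1)) ℂ) (hF : ∀ i, (F i).IsHomogeneous (d i))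
    (hs : ∀ i, Smooth (F i)) (m : Fin R → ℕ) (hm : ∀ j, 1 ≤ m j) (a : Fin R → Fin r → ℕ)
    (hdiv : ∀ j i, m j ∣ a j i * d i)
    (K : Type) [Field K] [Algebra ℂ K] (x : ∀ i, Fin (n i + 1) → K) (hx0 : ∀ i, x i 0 ≠ 0)
    (hbas : IsTranscendenceBasis ℂ (affine x)) (z : Fin R → K)
    (hz : ∀ j, z j ^ m j = ∏ i, (aeval (x i) (F i) / x i 0 ^ d i) ^ a j i)
    (hgen : IntermediateField.adjoin ℂ (Set.range (affine x) ∪ Set.range z) = ⊤)
    (fan : Finset (Finset (Fin r → ℕ))) (hfan : IsFan m a fan)
    (c : Fin p → (Fin r → ℕ) → ℚ) (hc0 : ∀ i, c i 0 = 0) (β : Fin p → Fin r → ℤ)
    (u : Finset (Fin r → ℕ) → Fin p → Fin r → ℚ)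
    (hlin : ∀ σ ∈ fan, ∀ i v, Admissible m a v → InCone σ v → - c i v = ∑ k, u σ i k * v k)
    (δ : Fin p → Place ℂ K → ℚ) (hδ : ∀ i P, δ i P = coefficient F d x (c i) (β i) P)
    (δ' : Fin p → Place ℂ K → ℚ) (hδ' : IsSmallModification N δ δ')
    (ν0 : Fin p → ℤ) (hν0 : IsNef N δ' fun i => (ν0 i : ℝ)) (q : ℕ) (e : Fin q → Fin p → ℤ) :
    (∃ (B : ℕ) (h : Fin B → Fin q → ℤ),
      (∀ b, BasePointFreeOver N δ' ν0 (combinationZ e (h b))) ∧
      {x | IsNefOver N δ' ν0 (combination e x)} = coneOf h) ∧
    (IsBasisOver N δ' ν0 e → ∀ Γ : Subgroup (Matrix (Fin q) (Fin q) ℤ)ˣ,
      (∀ γ ∈ Γ, ∀ x, IsNefOver N δ' ν0 (combination e x) →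
        IsNefOver N δ' ν0 (combination e (apply γ x))) →
      Finite Γ ∧ ∃ (M : ℕ) (π : Fin M → Fin q → ℤ),
        (∀ b, BasePointFreeOver N δ' ν0 (combinationZ e (π b))) ∧
          IsFundamentalDomain Γ {x | IsNefOver N δ' ν0 (combination e x)} (coneOf π)) :=
  rel_nef (Pool.Agent.Q57.CX.main_cox (N := N) hr hn hN hd hF hs hx0 hbas hm hdiv hz hgen (S := fan)
    ⟨hfan.adm, hfan.full, hfan.cover⟩ hc0 (u := u) hlin (β := β) hδ) hδ' hν0 e

end Pool.Agent.Results.MP_20d318_ag.ProductCoverModels
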